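import Mathlib
import Pool.Agent.Q277.TriThreeQtwo

/-!
# 3-adic valuations of alternating sums of central binomials over powers of `m`

With `S_m(n) = ∑_{0 ≤ k < n} (-1)^k C(n-1,k) C(2k,k) m^{-k}`, `m ≡ 1 (mod 3)`, we prove
`ν₃(S_m(n)/n) ≥ min {ν₃(n), ν₃(m-1)} - 1` and the two refinements at `n = 3^a`.
-/

open Finset

namespace Pool.Agent.Results.MP_7f2dba_nt.ThreeAdic

/-- `ν₃(x)` for a rational number `x`, with `ν₃(0) = +∞`. -/
noncomputable def nu (x : ℚ) : WithTop ℤ := if x = 0 then ⊤ else ((padicValRat 3 x : ℤ) : WithTop ℤ)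

/-- `S_m(n) = ∑_{0 ≤ k < n} (-1)^k C(n-1,k) C(2k,k) m^{-k}`. -/
def S (m : ℤ) (n : ℕ) : ℚ :=
  ∑ k ∈ range n, (-1) ^ k * ((n - 1).choose k : ℚ) * ((2 * k).choose k : ℚ) / (m : ℚ) ^ k

/-- `x ≡ y (mod 3^e)` in the ring of rationals with denominator prime to `3`. -/
def CongThree (e : ℕ) (x y : ℚ) : Prop :=
  ∃ u w : ℤ, ¬ (3 : ℤ) ∣ w ∧ x - y = (3 : ℚ) ^ e * ((u : ℚ) / (w : ℚ))

theorem valuation_le {x c : ℚ} {e : ℕ} (hx : x ≠ 0) (hc : Q277.PInt.PI 3 c)
    (h : 3 * x = (3 : ℚ) ^ e * c) : (e : ℤ) ≤ padicValRat 3 x + 1 := by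
  have hf : Fact (Nat.Prime 3) := ⟨Nat.prime_three⟩
  obtain ⟨D, N, hD, hN⟩ := hc
  have hD0 : D ≠ 0 := by rintro rfl; exact hD (dvd_zero _)
  have hN0 : N ≠ 0 := by
    rintro rfl
    have hDQ : (D : ℚ) ≠ 0 := by exact_mod_cast hD0
    have hc0 : c = 0 := by
      rw [Int.cast_zero] at hN
      rcases mul_eq_zero.1 hN with h1 | h1
      · exact absurd h1 hDQ
      · exact h1
    rw [hc0, mul_zero] at h
    exact hx (by linarith)
  have h1 : (D : ℚ) * (3 * x) = (3 : ℚ) ^ e * N := by rw [h, ← hN]; ring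
  have h2 := congrArg (padicValRat 3) h1
  have hDQ : (D : ℚ) ≠ 0 := by exact_mod_cast hD0
  have hNQ : (N : ℚ) ≠ 0 := by exact_mod_cast hN0
  have h3 : ((3 : ℕ) : ℚ) = 3 := by norm_num
  rw [padicValRat.mul hDQ (mul_ne_zero (by norm_num) hx), padicValRat.mul (by norm_num) hx,
    padicValRat.mul (pow_ne_zero _ (by norm_num)) hNQ, padicValRat.pow,
    ← h3, padicValRat.self (by norm_num), padicValRat.of_int, padicValRat.of_int,
    padicValInt.eq_zero_of_not_dvd hD] at h2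
  push_cast at h2
  have : (0 : ℤ) ≤ padicValInt 3 N := by positivity
  linarith

/-- **Q1** For every integer `m ≡ 1 (mod 3)` and every `n ≥ 1`,
`min {ν₃(n), ν₃(m-1)} ≤ ν₃(S_m(n)/n) + 1`.
**Q2 (a)** For every `m ≡ 1 (mod 3)`, `m ≠ 1`, and every `a > ν₃(m-1)`,
`3^{-a} S_m(3^a) ≡ -(m-1)/3 (mod 3^{ν₃(m-1)})`.
**Q2 (b)** For every `a ≥ 2`, `S_1(3^a)` is an integer congruent to `-3^{2a-1}` modulo `3^{2a}`. -/
theorem result :
    (∀ (m : ℤ) (n : ℕ), m ≡ 1 [ZMOD 3] → 1 ≤ n →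
      min (nu (n : ℚ)) (nu ((m : ℚ) - 1)) ≤ nu (S m n / (n : ℚ)) + 1) ∧
    (∀ (m : ℤ) (a : ℕ), m ≡ 1 [ZMOD 3] → m ≠ 1 → padicValInt 3 (m - 1) < a →
      CongThree (padicValInt 3 (m - 1)) (S m (3 ^ a) / (3 : ℚ) ^ a) (-((m : ℚ) - 1) / 3)) ∧
    (∀ a : ℕ, 2 ≤ a →
      ∃ z : ℤ, S 1 (3 ^ a) = -(3 : ℚ) ^ (2 * a - 1) + (3 : ℚ) ^ (2 * a) * (z : ℚ)) := by
  have hf : Fact (Nat.Prime 3) := ⟨Nat.prime_three⟩
  have hS : ∀ m n, S m n = Q277.TriThree.S m n := fun m n => rfl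
  refine ⟨?_, ?_, ?_⟩
  · intro m n hm hn
    have hm' : (3 : ℤ) ∣ 1 - m := hm.dvd
    have hnQ : (n : ℚ) ≠ 0 := by positivity
    -- the exponent
    obtain ⟨e, he1, he2, he3⟩ : ∃ e : ℕ, 3 ^ e ∣ n ∧ (3 : ℤ) ^ e ∣ 1 - m ∧
        min (nu (n : ℚ)) (nu ((m : ℚ) - 1)) = ((e : ℤ) : WithTop ℤ) := by
      have h1 : nu (n : ℚ) = (((padicValNat 3 n : ℕ) : ℤ) : WithTop ℤ) := by
        unfold nu
        rw [if_neg hnQ, padicValRat.of_nat]
      by_cases hm1 : m = 1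
      · refine ⟨padicValNat 3 n, pow_padicValNat_dvd, by rw [hm1]; simp, ?_⟩
        rw [h1]
        have : nu ((m : ℚ) - 1) = ⊤ := by
          unfold nu
          rw [if_pos (by rw [hm1]; norm_num)]
        rw [this, min_top_right]
      · have h2 : nu ((m : ℚ) - 1) = (((padicValInt 3 (m - 1) : ℕ) : ℤ) : WithTop ℤ) := by
          unfold nu
          have hne : (m : ℚ) - 1 ≠ 0 := by
            intro h
            apply hm1
            have : (m : ℚ) = 1 := by linarith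
            exact_mod_cast this
          rw [if_neg hne]
          have : ((m : ℚ) - 1) = ((m - 1 : ℤ) : ℚ) := by push_cast; ring
          rw [this, padicValRat.of_int]
        refine ⟨min (padicValNat 3 n) (padicValInt 3 (m - 1)), ?_, ?_, ?_⟩
        · exact (pow_dvd_pow 3 (min_le_left _ _)).trans pow_padicValNat_dvd
        · have h3 : (3 : ℤ) ^ (padicValInt 3 (m - 1)) ∣ m - 1 := padicValInt_dvd (m - 1)
          have h4 := (pow_dvd_pow (3 : ℤ) (min_le_right (padicValNat 3 n) (padicValInt 3 (m - 1)))).trans h3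
          have h5 := (dvd_neg (a := _) (b := m - 1)).2 h4
          have e : -(m - 1) = 1 - m := by ring
          rwa [e] at h5
        · rw [h1, h2, ← WithTop.coe_min, ← Nat.cast_min]
    rw [he3]
    by_cases hx : S m n / (n : ℚ) = 0
    · unfold nu
      rw [if_pos hx]
      simp
    · obtain ⟨c, hc, h⟩ := Q277.TriThree.Q1 hm' hn he1 he2
      rw [sub_zero] at h
      have h5 := valuation_le hx hc (by rw [hS]; exact_mod_cast h)
      unfold nu
      rw [if_neg hx]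
      exact_mod_cast h5
  · intro m a hm hm1 ha
    have hm' : (3 : ℤ) ∣ 1 - m := hm.dvd
    have h3 : (3 : ℤ) ^ (padicValInt 3 (m - 1)) ∣ m - 1 := padicValInt_dvd (m - 1)
    have hneg : -(m - 1) = 1 - m := by ring
    have h4 : (3 : ℤ) ^ (padicValInt 3 (m - 1)) ∣ 1 - m := by
      have h5 := (dvd_neg (a := _) (b := m - 1)).2 h3
      rwa [hneg] at h5
    have he : 1 ≤ padicValInt 3 (m - 1) := by
      rw [Nat.one_le_iff_ne_zero]
      intro h0
      rcases (padicValInt.eq_zero_iff).1 h0 with h | h | h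
      · norm_num at h
      · exact hm1 (by linarith)
      · apply h
        have h5 := (dvd_neg (a := (3 : ℤ)) (b := 1 - m)).2 hm'
        have e : -(1 - m) = m - 1 := by ring
        rw [e] at h5
        exact_mod_cast h5
    obtain ⟨b, rfl⟩ : ∃ b, a = b + 1 := ⟨a - 1, by omega⟩
    obtain ⟨c, ⟨D, N, hD, hN⟩, h⟩ := Q277.TriThree.Q2a he (by omega : padicValInt 3 (m - 1) ≤ b) h4
    refine ⟨N, D, by exact_mod_cast hD, ?_⟩
    have hDQ : (D : ℚ) ≠ 0 := by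
      intro h0
      have : D = 0 := by exact_mod_cast h0
      rw [this] at hD
      exact hD (dvd_zero _)
    rw [hS, h, ← hN]
    push_cast
    field_simp
  · intro a ha
    obtain ⟨b, rfl⟩ : ∃ b, a = b + 1 := ⟨a - 1, by omega⟩
    obtain ⟨z, hz⟩ := Q277.TriThree.Q2b b (by omega)
    refine ⟨z, ?_⟩
    rw [hS, hz]
    have e1 : 2 * (b + 1) - 1 = 2 * b + 1 := by omega
    have e2 : 2 * (b + 1) = 2 * b + 2 := by ring
    rw [e1, e2]

end Pool.Agent.Results.MP_7f2dba_nt.ThreeAdic
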